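import Pool.Agent.L7h4.SF.Main

set_option autoImplicit false

namespace Pool.Agent.L7h4.SF

open MvPolynomial Pool.Helper89.Rev Pool.Agent.L7h57.RV Matrix

theorem s_ACT : S_ACT := by
  intro n g g' c hg
  funext i
  apply MvPolynomial.funext
  intro y
  have e1 : ∀ k, eval y (aeval (lin g') (lfE c k)) =
      (∑ j, c j * ∑ l, g' j l * y l) * ∑ l, g' k l * y l := by
    intro k
    rw [eval_aeval']
    simp only [lfE, map_mul, map_sum, eval_C, eval_X, eval_lin]
  have e2 : ∑ k, g i k * (∑ l, g' k l * y l) = y i := by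
    have : ∀ k, g i k * (∑ l, g' k l * y l) = ∑ l, g i k * g' k l * y l := by
      intro k
      rw [Finset.mul_sum]
      apply Finset.sum_congr rfl
      intro l _
      ring
    simp only [this]
    rw [Finset.sum_comm]
    have h3 : ∀ l, ∑ k, g i k * g' k l * y l = (1 : Matrix (Fin n) (Fin n) ℂ) i l * y l := by
      intro l
      rw [← hg, Matrix.mul_apply, Finset.sum_mul]
    simp only [h3, Matrix.one_apply, ite_mul, one_mul, zero_mul]
    simp
  have e3 : ∑ j, c j * ∑ l, g' j l * y l = ∑ j, (c ᵥ* g') j * y j := by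
    simp only [Matrix.vecMul, dotProduct, Finset.mul_sum, Finset.sum_mul]
    rw [Finset.sum_comm]
    apply Finset.sum_congr rfl
    intro j _
    apply Finset.sum_congr rfl
    intro l _
    ring
  have e4 : eval y (act g g' (lfE c) i) =
      ∑ k, g i k * ((∑ j, c j * ∑ l, g' j l * y l) * ∑ l, g' k l * y l) := by
    unfold act
    simp only [map_sum, map_mul, eval_C, e1]
  rw [e4]
  have e5 : ∑ k, g i k * ((∑ j, c j * ∑ l, g' j l * y l) * ∑ l, g' k l * y l) =
      (∑ j, c j * ∑ l, g' j l * y l) * ∑ k, g i k * (∑ l, g' k l * y l) := by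
    rw [Finset.mul_sum]
    apply Finset.sum_congr rfl
    intro k _
    ring
  rw [e5, e2, e3]
  simp [lfE, map_sum]

end Pool.Agent.L7h4.SF
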