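import Pool.Agent.L7h4.SF.Stm
import Pool.Agent.L7h12.F5.Gcj
import Pool.Agent.L7h7.SF.Rank
import Pool.Agent.L7h60.SF.Sim
import Pool.Agent.L7h77.SF.C3
import Pool.Agent.L7h99.SF.G1
import Pool.Agent.L7h23.SF.Gtwo

set_option autoImplicit false

namespace Pool.Agent.L7h4.SF

open Matrix Pool.Agent.L7h4.F5

theorem det3 (b : ℂ) (u p : Fin 3 → ℂ) :
    (b • (1 : Mat 3) + vecMulVec u p).det = b ^ 2 * (b + p ⬝ᵥ u) := by
  rw [Matrix.det_fin_three]
  simp only [Matrix.add_apply, Matrix.smul_apply, vecMulVec_apply, dotProduct,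
    Fin.sum_univ_three, smul_eq_mul]
  simp [Matrix.one_apply]
  ring

theorem s_D3 (A : Mat 3) (hdet : A.det = 1 ∨ A.det = -1) (hc : ¬ Cyclic A)
    (hs : ∀ l : ℂ, A ≠ l • 1) (h2 : A * A ≠ 1) : Good 4 A := by
  obtain ⟨b, u, p, hu, hp, hA⟩ := Pool.Agent.L7h7.SF.s_RANK A hc hs
  set x := A.det with hx
  have hx2 : x ^ 2 = 1 := by rcases hdet with h | h <;> rw [h] <;> norm_num
  have hxd : x = b ^ 2 * (b + p ⬝ᵥ u) := by rw [hx, hA, det3]
  have hb0 : b ≠ 0 := by
    intro h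
    rw [h] at hxd
    rw [hxd] at hx2
    norm_num at hx2
  have hpu : p ⬝ᵥ u = x / b ^ 2 - b := by
    rw [hxd]
    field_simp
    ring
  have fin : ∀ u' p' : Fin 3 → ℂ, u' ≠ 0 → p' ≠ 0 → p' ⬝ᵥ u' = p ⬝ᵥ u →
      Good 4 (b • 1 + vecMulVec u' p') → Good 4 A := by
    intro u' p' hu' hp' he hG
    obtain ⟨P, P', h1, h1', h3⟩ := Pool.Agent.L7h60.SF.s_SIM u p u' p' hu hp hu' hp' he.symm
    apply Pool.Agent.L7h12.F5.s_GCJ 3 4 A P P' h1 h1'
    have e : P' * A * P = b • 1 + vecMulVec u' p' := by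
      rw [hA, mul_add, add_mul, h3, Matrix.mul_smul, mul_one, Matrix.smul_mul, h1']
    rw [e]
    exact hG
  have hC3 := Pool.Agent.L7h77.SF.s_C3
  by_cases hb : b ^ 2 = 1
  · have hxb : (x - b) * (x + b) = 0 := by linear_combination hx2 - hb
    rw [hb, div_one] at hpu
    rcases mul_eq_zero.mp hxb with h | h
    · obtain ⟨u', p', hu', hp', he, hG⟩ := Pool.Agent.L7h23.SF.s_G2 hC3 b hb
      exact fin u' p' hu' hp' (by rw [he, hpu, h]) hG
    · exfalso
      apply h2
      have hpu2 : p ⬝ᵥ u = -2 * b := by linear_combination hpu + h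
      have hvv : vecMulVec u p * vecMulVec u p = (-2 * b) • vecMulVec u p := by
        rw [← hpu2]
        ext i j
        rw [Matrix.mul_apply, Matrix.smul_apply, vecMulVec_apply, smul_eq_mul, dotProduct,
          Finset.sum_mul]
        apply Finset.sum_congr rfl
        intro k _
        rw [vecMulVec_apply, vecMulVec_apply]
        ring
      have e6 : A * A = (b ^ 2) • (1 : Mat 3) := by
        rw [hA, add_mul, mul_add, mul_add, hvv]
        simp only [Matrix.smul_mul, Matrix.mul_smul, one_mul, mul_one, smul_smul]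
        module
      rw [e6, hb, one_smul]
  · obtain ⟨u', p', hu', hp', he, hG⟩ := Pool.Agent.L7h99.SF.s_G1 hC3 b x hb0 hb hx2
    exact fin u' p' hu' hp' (by rw [he, hpu]) hG

end Pool.Agent.L7h4.SF
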