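import Pool.Agent.L7h4.SF.Act
import Pool.Agent.L7h4.SF.Dthree
import Pool.Agent.L7h9.SF.Vdm
import Pool.Agent.L7h37.SF.Lin
import Pool.Agent.L7h46.SF.Set
import Pool.Agent.L7h70.SF.Dvn
import Pool.Agent.L7h4.FR.Asm
import Pool.Agent.L7h29.F5.Poly
import Pool.Agent.L7h57.RV.Two
import Pool.Agent.L7h57.RV.Bridge

/-! Project SF: assembly. -/

set_option autoImplicit false

namespace Pool.Agent.L7h4.SF

open Pool.Agent Pool.Agent.L7h57.RV

theorem sf : S_SF :=
  s_SF L7h57.RV.gen L7h46.SF.s_SET L7h37.SF.s_LIN s_ACT L7h9.SF.s_VDM L7h70.SF.s_DVN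

open Pool.Agent.Results.MP_2a1f98_al.ThreeReversibles.FormalMap in
theorem rever_of_four {n : ℕ} {f : TR n} (h4 : f ∈ Prods (Invol n) 4) :
    f ∈ Prods (Rever n) 2 := by
  obtain ⟨s, hs, hp⟩ := h4
  refine ⟨![s 0 * s 1, s 2 * s 3], ?_, ?_⟩
  · intro i
    fin_cases i
    · exact rever_of_two (hs 0) (hs 1)
    · exact rever_of_two (hs 2) (hs 3)
  · rw [← hp]
    simp [List.ofFn_succ, mul_assoc]

open Pool.Agent.Results.MP_2a1f98_al.ThreeReversibles.FormalMap in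
theorem scalar_four {n : ℕ} (hn : 2 ≤ n) (f : TR n)
    (hf : f ∈ Pool.Agent.Results.MP_2a1f98_al.ThreeReversibles.FormalMap.RevGen n)
    (l : ℂ) (hl : f.lin = l • 1) (hl2 : l ^ 2 ≠ 1) : f ∈ Prods (Invol n) 4 := by
  rw [RevGen_eq hn] at hf
  have hd : l ^ n = 1 ∨ l ^ n = -1 := by
    have h : f.lin.det = 1 ∨ f.lin.det = -1 := hf
    rw [hl, Matrix.det_smul, Matrix.det_one, mul_one, Fintype.card_fin] at h
    exact h
  exact prods_of_prodInv (sf n l hn hd hl2 (ofTR f) hl)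

open Pool.Agent.Results.MP_2a1f98_al.ThreeReversibles.FormalMap in
theorem three_four (f : TR 3) (hf : f ∈ RevGen 3) (h2 : f.lin * f.lin ≠ 1) :
    f ∈ Prods (Invol 3) 4 := by
  by_cases hs : ∃ l : ℂ, f.lin = l • 1
  · obtain ⟨l, hl⟩ := hs
    apply scalar_four (by norm_num) f hf l hl
    intro h
    apply h2
    rw [hl, Matrix.smul_mul, Matrix.mul_smul, Matrix.one_mul, smul_smul, ← sq, h, one_smul]
  · push Not at hs
    by_cases hc : L7h4.F5.Cyclic f.lin
    · exact (L7h4.F5.four L7h29.F5.s_POLY 3 (by norm_num) f hf hc (by norm_num)).1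
    · have hf' := hf
      rw [RevGen_eq (by norm_num)] at hf'
      exact L7h4.F5.good_prods L7h29.F5.s_POLY f (s_D3 f.lin hf' hc hs h2)

end Pool.Agent.L7h4.SF
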