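import Pool.Agent.L7h4.SF.Stm

/-! Project SF: the main step. -/

set_option autoImplicit false

namespace Pool.Agent.L7h4.SF

open MvPolynomial Pool.Helper89.Rev Pool.Agent.L7h57.RV Matrix

lemma eval_aeval' {n : ℕ} (f : Fin n → MvPolynomial (Fin n) ℂ) (y : Fin n → ℂ)
    (p : MvPolynomial (Fin n) ℂ) :
    eval y (aeval f p) = eval (fun k => eval y (f k)) p := by
  induction p using MvPolynomial.induction_on with
  | C a => simp
  | add p q hp hq => rw [map_add, map_add, map_add, hp, hq]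
  | mul_X p i hp => rw [map_mul, map_mul, map_mul, hp, aeval_X, eval_X]

lemma eval_lin {n : ℕ} (g : Matrix (Fin n) (Fin n) ℂ) (y : Fin n → ℂ) (k : Fin n) :
    eval y (lin g k) = ∑ l, g k l * y l := by
  unfold lin
  simp [map_sum]

lemma act_scalar {n d : ℕ} (c c' : ℂ) {P : VF n} (hP : HomT d P) :
    act (c • (1 : Matrix (Fin n) (Fin n) ℂ)) (c' • 1) P = (c * c' ^ d) • P := by
  funext i
  unfold act
  rw [Finset.sum_eq_single i]
  · apply MvPolynomial.funext
    intro y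
    have e1 : eval y (aeval (lin (c' • (1 : Matrix (Fin n) (Fin n) ℂ))) (P i)) =
        c' ^ d * eval y (P i) := by
      rw [← eval_scale (hP i), eval_aeval']
      congr 1
      congr 1
      funext k
      rw [eval_lin, Finset.sum_eq_single k]
      · simp
      · intro j _ hj
        simp [Matrix.one_apply_ne (Ne.symm hj)]
      · intro h; exact absurd (Finset.mem_univ _) h
    rw [map_mul, e1]
    simp only [Pi.smul_apply, smul_eval, Matrix.smul_apply, Matrix.one_apply_eq, smul_eq_mul,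
      mul_one, eval_C]
    ring
  · intro j _ hj
    simp [Matrix.one_apply_ne (Ne.symm hj)]
  · intro h; exact absurd (Finset.mem_univ _) h

lemma br_add_left {n : ℕ} (A A' D : VF n) : br (A + A') D = br A D + br A' D := by
  funext i
  simp only [br, Pi.add_apply, map_add]
  rw [← Finset.sum_add_distrib]
  apply Finset.sum_congr rfl
  intro j _
  ring

lemma br_smul_left {n : ℕ} (c : ℂ) (A D : VF n) : br (c • A) D = c • br A D := by
  funext i
  simp only [br, Pi.smul_apply, Finset.smul_sum]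
  apply Finset.sum_congr rfl
  intro j _
  have e : pderiv j (c • A i) = c • pderiv j (A i) := (pderiv j).map_smul c (A i)
  rw [e, smul_mul_assoc, mul_smul_comm, ← smul_sub]

lemma br_zero_left {n : ℕ} (D : VF n) : br 0 D = 0 := by
  have := br_smul_left (0 : ℂ) (0 : VF n) D
  rwa [zero_smul, zero_smul] at this

lemma br_sum_left {n : ℕ} {ι : Type} (s : Finset ι) (f : ι → VF n) (D : VF n) :
    br (∑ i ∈ s, f i) D = ∑ i ∈ s, br (f i) D := by
  classical
  induction s using Finset.induction_on with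
  | empty => simp [br_zero_left]
  | insert i s hi ih => rw [Finset.sum_insert hi, Finset.sum_insert hi, br_add_left, ih]

lemma lfE_hom {n : ℕ} (c : Fin n → ℂ) : HomT 2 (lfE c) := by
  intro i
  have h1 : (∑ j, C (c j) * X j : MvPolynomial (Fin n) ℂ).IsHomogeneous 1 :=
    IsHomogeneous.sum _ _ _ fun j _ => isHomogeneous_C_mul_X _ _
  exact h1.mul (isHomogeneous_X _ i)

lemma lfE_add {n : ℕ} (c c' : Fin n → ℂ) : lfE (c + c') = lfE c + lfE c' := by
  funext i
  simp only [lfE, Pi.add_apply, map_add, add_mul, Finset.sum_add_distrib]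

lemma lfE_smul {n : ℕ} (s : ℂ) (c : Fin n → ℂ) : lfE (s • c) = s • lfE c := by
  funext i
  simp only [lfE, Pi.smul_apply, MvPolynomial.smul_eq_C_mul, smul_eq_mul, map_mul]
  rw [← mul_assoc, Finset.mul_sum]
  congr 1
  apply Finset.sum_congr rfl
  intro j _
  ring

lemma lfE_zero {n : ℕ} : lfE (0 : Fin n → ℂ) = 0 := by
  have := lfE_smul (0 : ℂ) (0 : Fin n → ℂ)
  rwa [zero_smul, zero_smul] at this

lemma lfE_neg {n : ℕ} (c : Fin n → ℂ) : lfE (-c) = - lfE c := by
  rw [← neg_one_smul ℂ c, lfE_smul, neg_one_smul]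

lemma lfE_sum {n : ℕ} {ι : Type} (s : Finset ι) (f : ι → Fin n → ℂ) :
    lfE (∑ i ∈ s, f i) = ∑ i ∈ s, lfE (f i) := by
  classical
  induction s using Finset.induction_on with
  | empty => simp [lfE_zero]
  | insert i s hi ih => rw [Finset.sum_insert hi, Finset.sum_insert hi, lfE_add, ih]

lemma prodInv_conj {n r : ℕ} {F u : G n} (h : ProdInv r (u * F * u⁻¹)) : ProdInv r F := by
  obtain ⟨s, hs, hF⟩ := h
  refine ⟨fun j => u⁻¹ * s j * u, fun j => ?_, ?_⟩
  · have e : u⁻¹ * s j * u * (u⁻¹ * s j * u) = u⁻¹ * (s j * s j) * u := by group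
    rw [e, hs j]
    group
  · have e : F = u⁻¹ * (u * F * u⁻¹) * u := by group
    rw [e, hF]
    have key : ∀ l : List (G n), u⁻¹ * l.prod * u = (l.map (fun x => u⁻¹ * x * u)).prod := by
      intro l
      induction l with
      | nil => simp
      | cons a l ih =>
        rw [List.map_cons, List.prod_cons, List.prod_cons, ← ih]
        group
    rw [key, List.map_ofFn]
    rfl

/-- a conjugate of a linear involution with prescribed quadratic part -/
lemma exists_inv {n : ℕ} (t : Matrix (Fin n) (Fin n) ℂ) (ht : t * t = 1) (a : VF n)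
    (ha : HomT 2 a) (hta : act t t a = -a) : ∃ s : G n, s * s = 1 ∧ s * (Tl t ht)⁻¹ ∈ K n 2 ∧
      gr 2 ((s * (Tl t ht)⁻¹ : G n) : FormalMap n) = a ∧ linPart (s : FormalMap n) = t := by
  have h12 : HomT 2 ((1 / 2 : ℂ) • a) := by
    have := (HomV n 2).smul_mem (1 / 2 : ℂ) (mem_HomV.2 ha)
    exact mem_HomV.1 this
  obtain ⟨u, hu, hgu⟩ := exists_gr (le_refl 2) h12
  have hc := gr_commutator (le_refl 2) hu (Tl_sq t ht) (Tl_lin t ht) hgu
  refine ⟨u * Tl t ht * u⁻¹, ?_, hc.1, ?_, ?_⟩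
  · have e : u * Tl t ht * u⁻¹ * (u * Tl t ht * u⁻¹) = u * (Tl t ht * Tl t ht) * u⁻¹ := by group
    rw [e, Tl_sq]
    group
  · rw [hc.2]
    have e : act t t ((1 / 2 : ℂ) • a) = (1 / 2 : ℂ) • act t t a := (actL t t).map_smul _ _
    rw [e, hta]
    module
  · rw [linPart_conj hu, Tl_lin]

theorem s_SF (h1 : S_GEN) (hSET : S_SET) (hLIN : S_LIN) (hACT : S_ACT) (hVDM : S_VDM)
    (hDVN : S_DVN) : S_SF := by
  classical
  intro n l hn hl hl2 F hF
  obtain ⟨a, σ, τ, hinj, ha0, hσ, hτ⟩ := hSET n l hn hl hl2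
  have hl0 : l ≠ 0 := by
    intro h
    rw [h, zero_pow (by omega)] at hl
    rcases hl with h | h
    · exact zero_ne_one h
    · norm_num at h
  have hl1 : l ≠ 1 := fun h => hl2 (by rw [h, one_pow])
  obtain ⟨L, c, hLsq, hL01, hLprod, hc0, hcL, hcsum⟩ := hLIN n l a σ τ hl0 hinj ha0 hσ hτ
  have hLrev : L 3 * L 2 * L 1 * L 0 = l⁻¹ • 1 := by
    have e1 : (L 3 * L 2 * L 1 * L 0) * (L 0 * L 1 * L 2 * L 3) = 1 := by
      calc (L 3 * L 2 * L 1 * L 0) * (L 0 * L 1 * L 2 * L 3)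
          = L 3 * L 2 * L 1 * (L 0 * L 0) * L 1 * L 2 * L 3 := by simp only [Matrix.mul_assoc]
        _ = L 3 * L 2 * (L 1 * L 1) * L 2 * L 3 := by
            rw [hLsq 0, Matrix.mul_one]; simp only [Matrix.mul_assoc]
        _ = L 3 * (L 2 * L 2) * L 3 := by
            rw [hLsq 1, Matrix.mul_one]; simp only [Matrix.mul_assoc]
        _ = 1 := by rw [hLsq 2, Matrix.mul_one, hLsq 3]
    rw [hLprod, Matrix.mul_smul, Matrix.mul_one] at e1
    rw [← e1, smul_smul, inv_mul_cancel₀ hl0, one_smul]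
  have hII1 : (l • (1 : Matrix (Fin n) (Fin n) ℂ)) * (l⁻¹ • 1) = 1 := by
    rw [Matrix.smul_mul, Matrix.one_mul, smul_smul, mul_inv_cancel₀ hl0, one_smul]
  have hII2 : (l⁻¹ • (1 : Matrix (Fin n) (Fin n) ℂ)) * (l • 1) = 1 := by
    rw [Matrix.smul_mul, Matrix.one_mul, smul_smul, inv_mul_cancel₀ hl0, one_smul]
  set Lam : G n := unitOf (l • 1) (l⁻¹ • 1) hII1 hII2 with hLam
  have Lam_lin : linPart (Lam : FormalMap n) = l • 1 := linPart_unitOf _ _ _ _
  have Lam_inv_lin : linPart ((Lam⁻¹ : G n) : FormalMap n) = l⁻¹ • 1 := linPart_ofMatrix _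
  have hLT : Tl (L 0) (hLsq 0) * Tl (L 1) (hLsq 1) * Tl (L 2) (hLsq 2) * Tl (L 3) (hLsq 3) =
      Lam := by
    apply Units.ext
    change ofMatrix (L 0) * ofMatrix (L 1) * ofMatrix (L 2) * ofMatrix (L 3) =
      ofMatrix (l • 1)
    rw [← ofMatrix_mul, ← ofMatrix_mul, ← ofMatrix_mul, hLprod]
  have Lam_comm : ∀ j, Lam * Tl (L j) (hLsq j) * Lam⁻¹ = Tl (L j) (hLsq j) := by
    intro j
    have h : Lam * Tl (L j) (hLsq j) = Tl (L j) (hLsq j) * Lam := by
      apply Units.ext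
      change ofMatrix (l • 1) * ofMatrix (L j) = ofMatrix (L j) * ofMatrix (l • 1)
      rw [← ofMatrix_mul, ← ofMatrix_mul]
      simp
    rw [h]
    group
  have hl3 : (1 - l⁻¹ : ℂ) ≠ 0 := by
    intro h
    apply hl1
    have h5 : l⁻¹ = 1 := (sub_eq_zero.1 h).symm
    exact inv_eq_one.1 h5
  have hls : l * l⁻¹ ^ 2 = l⁻¹ := by
    field_simp
  -- step 1
  have hFL : F * Lam⁻¹ ∈ K n 2 := by
    rw [mem_K, cong_two_iff, linPart_one, Units.val_mul, linPart_mul, hF, Lam_inv_lin, hII1]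
  set f2 := gr 2 ((F * Lam⁻¹ : G n) : FormalMap n) with hf2
  have hb : HomT 2 (-(1 - l⁻¹)⁻¹ • f2) := by
    have := (HomV n 2).smul_mem (-(1 - l⁻¹)⁻¹)
      (mem_HomV.2 (gr_hom 2 ((F * Lam⁻¹ : G n) : FormalMap n)))
    exact mem_HomV.1 this
  obtain ⟨u, hu, hgu⟩ := exists_gr (le_refl 2) hb
  apply prodInv_conj (u := u)
  set F' := u * F * u⁻¹ with hF'
  have hF'K : F' * Lam⁻¹ ∈ K n 3 := by
    have e : F' * Lam⁻¹ = u * (F * Lam⁻¹) * (Lam * u⁻¹ * Lam⁻¹) := by rw [hF']; group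
    have m1 : Lam * u⁻¹ * Lam⁻¹ ∈ K n 2 := (K_normal 2).conj_mem _ ((K n 2).inv_mem hu) _
    have m2 : u * (F * Lam⁻¹) ∈ K n 2 := (K n 2).mul_mem hu hFL
    rw [e]
    apply mem_K_succ (le_refl 2) ((K n 2).mul_mem m2 m1)
    rw [gr_mul (le_refl 2) m2 m1, gr_mul (le_refl 2) hu hFL,
      gr_conj (le_refl 2) Lam ((K n 2).inv_mem hu), gr_inv (le_refl 2) hu, hgu, Lam_lin,
      Lam_inv_lin, act_scalar (d := 2), ← hf2]
    · rw [hls]
      have e2 : (-(1 - l⁻¹)⁻¹ • f2 + f2 + l⁻¹ • -(-(1 - l⁻¹)⁻¹ • f2)) =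
          (1 - (1 - l⁻¹) * (1 - l⁻¹)⁻¹) • f2 := by
        module
      rw [e2, mul_inv_cancel₀ hl3, sub_self, zero_smul]
    · intro i
      have := hb i
      rw [Pi.neg_apply]
      exact this.neg
  -- step 2
  have hq : ∀ j, act (L j) (L j) (lfE (c j)) = - lfE (c j) := by
    intro j
    rw [hACT n _ _ _ (hLsq j), hcL, lfE_neg]
  choose t hts htK htg htl using fun j => exists_inv (L j) (hLsq j) (lfE (c j)) (lfE_hom _) (hq j)
  set T : Fin 4 → G n := fun j => Tl (L j) (hLsq j) with hT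
  have htK' : ∀ j, t j * (T j)⁻¹ ∈ K n 2 := htK
  have htg' : ∀ j, gr 2 ((t j * (T j)⁻¹ : G n) : FormalMap n) = lfE (c j) := htg
  have hTi : ∀ j, (T j)⁻¹ = T j := fun j => Tl_inv _ _
  have hTlin : ∀ j, linPart (T j : FormalMap n) = L j := fun j => Tl_lin _ _
  set P := t 0 * t 1 * t 2 * t 3 with hP
  have hPL : P * Lam⁻¹ ∈ K n 3 := by
    have e : P * Lam⁻¹ = (t 0 * (T 0)⁻¹) * (T 0 * (t 1 * (T 1)⁻¹) * (T 0)⁻¹) *
        (T 0 * (T 1 * (t 2 * (T 2)⁻¹) * (T 1)⁻¹) * (T 0)⁻¹) *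
        (T 0 * (T 1 * (T 2 * (t 3 * (T 3)⁻¹) * (T 2)⁻¹) * (T 1)⁻¹) * (T 0)⁻¹) := by
      have e1 : Lam = T 0 * T 1 * T 2 * T 3 := hLT.symm
      rw [hP, e1]; group
    have m2 : T 0 * (t 1 * (T 1)⁻¹) * (T 0)⁻¹ ∈ K n 2 := (K_normal 2).conj_mem _ (htK' 1) _
    have m3 : T 1 * (t 2 * (T 2)⁻¹) * (T 1)⁻¹ ∈ K n 2 := (K_normal 2).conj_mem _ (htK' 2) _
    have m4 : T 0 * (T 1 * (t 2 * (T 2)⁻¹) * (T 1)⁻¹) * (T 0)⁻¹ ∈ K n 2 :=
      (K_normal 2).conj_mem _ m3 _
    have m5 : T 2 * (t 3 * (T 3)⁻¹) * (T 2)⁻¹ ∈ K n 2 := (K_normal 2).conj_mem _ (htK' 3) _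
    have m6 : T 1 * (T 2 * (t 3 * (T 3)⁻¹) * (T 2)⁻¹) * (T 1)⁻¹ ∈ K n 2 :=
      (K_normal 2).conj_mem _ m5 _
    have m7 : T 0 * (T 1 * (T 2 * (t 3 * (T 3)⁻¹) * (T 2)⁻¹) * (T 1)⁻¹) * (T 0)⁻¹ ∈ K n 2 :=
      (K_normal 2).conj_mem _ m6 _
    have m12 := (K n 2).mul_mem (htK' 0) m2
    have m124 := (K n 2).mul_mem m12 m4
    rw [e]
    apply mem_K_succ (le_refl 2) ((K n 2).mul_mem m124 m7)
    rw [gr_mul (le_refl 2) m124 m7, gr_mul (le_refl 2) m12 m4, gr_mul (le_refl 2) (htK' 0) m2,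
      gr_conj (le_refl 2) (T 0) (htK' 1), gr_conj (le_refl 2) (T 0) m3,
      gr_conj (le_refl 2) (T 1) (htK' 2), gr_conj (le_refl 2) (T 0) m6,
      gr_conj (le_refl 2) (T 1) m5, gr_conj (le_refl 2) (T 2) (htK' 3), htg', htg', htg', htg',
      hTi, hTi, hTi, hTlin, hTlin, hTlin, hACT n _ _ _ (hLsq 0), hACT n _ _ _ (hLsq 1),
      hACT n _ _ _ (hLsq 0), hACT n _ _ _ (hLsq 2), hACT n _ _ _ (hLsq 1),
      hACT n _ _ _ (hLsq 0), Matrix.vecMul_vecMul, Matrix.vecMul_vecMul,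
      Matrix.vecMul_vecMul, ← lfE_add, ← lfE_add, ← lfE_add]
    rw [← lfE_zero, ← hcsum]
    simp only [Matrix.mul_assoc]
  have hprod : (List.ofFn t).prod = P := by
    simp [List.ofFn_succ, hP, mul_assoc]
  have hFP : F' * ((List.ofFn t).prod)⁻¹ ∈ K n 3 := by
    rw [hprod]
    have e : F' * P⁻¹ = (F' * Lam⁻¹) * (P * Lam⁻¹)⁻¹ := by group
    rw [e]
    exact (K n 3).mul_mem hF'K ((K n 3).inv_mem hPL)
  apply h1 n 4 t hts 3 (le_refl 3) F' hFP
  intro d hd w hw
  set S := Submodule.span ℂ (GenSet t d) with hS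
  have g1 : ∀ j, ∀ e : VF n, HomT d e → e - act (L j) (L j) e ∈ S := by
    intro j e he
    apply Submodule.subset_span
    left
    exact ⟨j, e, he, by rw [htl]⟩
  have k1 : ∀ j, ∀ e : VF n, HomT d e → e ∈ S → act (L j) (L j) e ∈ S := by
    intro j e he hes
    have e1 : act (L j) (L j) e = e - (e - act (L j) (L j) e) := by abel
    rw [e1]
    exact S.sub_mem hes (g1 j e he)
  have homsub : ∀ e f : VF n, HomT d e → HomT d f → HomT d (e - f) := fun e f he hf i =>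
    (he i).sub (hf i)
  have tel : w - act (l • 1) (l⁻¹ • 1) w ∈ S := by
    have e0 : act (l • 1) (l⁻¹ • 1) w =
        act (L 0) (L 0) (act (L 1) (L 1) (act (L 2) (L 2) (act (L 3) (L 3) w))) := by
      rw [act_act, act_act, act_act, ← hLprod, ← hLrev]
      simp only [Matrix.mul_assoc]
    have l0 : ∀ (j : Fin 4) (x y : VF n), act (L j) (L j) (x - y) =
      act (L j) (L j) x - act (L j) (L j) y := fun j x y => (actL (L j) (L j)).map_sub _ _
    have e1 : w - act (L 0) (L 0) (act (L 1) (L 1) (act (L 2) (L 2) (act (L 3) (L 3) w))) =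
        (w - act (L 0) (L 0) w) + act (L 0) (L 0) (w - act (L 1) (L 1) w) +
        act (L 0) (L 0) (act (L 1) (L 1) (w - act (L 2) (L 2) w)) +
        act (L 0) (L 0) (act (L 1) (L 1) (act (L 2) (L 2) (w - act (L 3) (L 3) w))) := by
      simp only [l0]
      abel
    have hA : ∀ (j : Fin 4) (e : VF n), HomT d e → HomT d (act (L j) (L j) e) :=
      fun j e he => act_hom he
    rw [e0, e1]
    have z1 := homsub _ _ hw (hA 1 _ hw)
    have z2 := homsub _ _ hw (hA 2 _ hw)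
    have z3 := homsub _ _ hw (hA 3 _ hw)
    apply S.add_mem (S.add_mem (S.add_mem (g1 0 w hw) _) _) _
    · exact k1 0 _ z1 (g1 1 w hw)
    · exact k1 0 _ (hA 1 _ z2) (k1 1 _ z2 (g1 2 w hw))
    · exact k1 0 _ (hA 1 _ (hA 2 _ z3)) (k1 1 _ (hA 2 _ z3) (k1 2 _ z3 (g1 3 w hw)))
  rw [act_scalar _ _ hw] at tel
  by_cases hmu : l * l⁻¹ ^ d = 1
  · have hd4 : 4 ≤ d := by
      by_contra hcon
      have : d = 3 := by omega
      subst this
      apply hl2
      have e : l * l⁻¹ ^ 3 = (l ^ 2)⁻¹ := by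
        field_simp
      rw [e] at hmu
      exact inv_eq_one.1 hmu
    have hmem : ∀ j, t j ∈ Subgroup.closure (Set.range t) := fun j =>
      Subgroup.subset_closure ⟨j, rfl⟩
    have hPm : P ∈ Subgroup.closure (Set.range t) :=
      Subgroup.mul_mem _ (Subgroup.mul_mem _ (Subgroup.mul_mem _ (hmem 0) (hmem 1)) (hmem 2))
        (hmem 3)
    have lP : linPart (P : FormalMap n) = l • 1 := by
      have e2 : P = (P * Lam⁻¹) * Lam := by group
      rw [e2, Units.val_mul, linPart_mul,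
        linPart_of_mem_K (K_mono (show 2 ≤ 3 by norm_num) hPL), Lam_lin, Matrix.one_mul]
    have lP' : linPart ((P⁻¹ : G n) : FormalMap n) = l⁻¹ • 1 := by
      have e2 : P⁻¹ = Lam⁻¹ * (P * Lam⁻¹)⁻¹ := by group
      rw [e2, Units.val_mul, linPart_mul,
        linPart_of_mem_K ((K n 2).inv_mem (K_mono (show 2 ≤ 3 by norm_num) hPL)),
        Lam_inv_lin, Matrix.mul_one]
    -- the commutators
    have hind : ∀ k : ℕ, ∃ γ ∈ Subgroup.closure (Set.range t), γ ∈ K n 2 ∧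
        gr 2 (γ : FormalMap n) = (-(1 - l⁻¹)) • lfE (fun i => (a i)⁻¹ ^ k) := by
      intro k
      induction k with
      | zero =>
        set s := t 0 with hs
        have e : P * s * P⁻¹ * s⁻¹ = (P * (s * (T 0)⁻¹) * P⁻¹) *
            ((P * Lam⁻¹) * ((Lam * T 0 * Lam⁻¹) * (P * Lam⁻¹)⁻¹ * (T 0)⁻¹)) *
              (s * (T 0)⁻¹)⁻¹ := by group
        have hsK : s * (T 0)⁻¹ ∈ K n 2 := htK' 0
        have m1 : P * (s * (T 0)⁻¹) * P⁻¹ ∈ K n 2 := (K_normal 2).conj_mem _ hsK _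
        have m2 : (P * Lam⁻¹) * ((Lam * T 0 * Lam⁻¹) * (P * Lam⁻¹)⁻¹ * (T 0)⁻¹) ∈ K n 3 := by
          apply (K n 3).mul_mem hPL
          have : Lam * T 0 * Lam⁻¹ = T 0 := Lam_comm 0
          rw [this]
          exact (K_normal 3).conj_mem _ ((K n 3).inv_mem hPL) _
        have m2' := K_mono (n := n) (show 2 ≤ 3 by norm_num) m2
        have m12 := (K n 2).mul_mem m1 m2'
        have m3 := (K n 2).inv_mem hsK
        refine ⟨P * s * P⁻¹ * s⁻¹, ?_, ?_, ?_⟩
        · exact Subgroup.mul_mem _ (Subgroup.mul_mem _ (Subgroup.mul_mem _ hPm (hmem 0))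
            (Subgroup.inv_mem _ hPm)) (Subgroup.inv_mem _ (hmem 0))
        · rw [e]
          exact (K n 2).mul_mem m12 m3
        · rw [e, gr_mul (le_refl 2) m12 m3, gr_mul (le_refl 2) m1 m2', gr_inv (le_refl 2) hsK,
            gr_conj (le_refl 2) P hsK, gr_of_mem_K_succ (le_refl 2) m2, htg' 0, lP, lP',
            act_scalar _ _ (lfE_hom _), hls, hc0]
          simp only [pow_zero]
          module
      | succ k ih =>
        obtain ⟨γ, hγ1, hγ2, hγ3⟩ := ih
        refine ⟨(t 0 * t 1) * γ * (t 0 * t 1)⁻¹, ?_, (K_normal 2).conj_mem _ hγ2 _, ?_⟩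
        · have m := Subgroup.mul_mem _ (hmem 0) (hmem 1)
          exact Subgroup.mul_mem _ (Subgroup.mul_mem _ m hγ1) (Subgroup.inv_mem _ m)
        · have hi : ∀ j, (t j)⁻¹ = t j := fun j => inv_eq_of_mul_eq_one_left (hts j)
          have e1 : linPart ((t 0 * t 1 : G n) : FormalMap n) = L 0 * L 1 := by
            rw [Units.val_mul, linPart_mul, htl, htl]
          have e2 : linPart (((t 0 * t 1)⁻¹ : G n) : FormalMap n) = L 1 * L 0 := by
            rw [_root_.mul_inv_rev, hi, hi, Units.val_mul, linPart_mul, htl, htl]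
          have e3 : L 0 * L 1 * (L 1 * L 0) = 1 := by
            calc L 0 * L 1 * (L 1 * L 0) = L 0 * (L 1 * L 1) * L 0 := by
                  simp only [Matrix.mul_assoc]
              _ = 1 := by rw [hLsq, Matrix.mul_one, hLsq]
          have e4 : L 1 * L 0 = Matrix.diagonal (fun i => (a i)⁻¹) := by
            have e5 : Matrix.diagonal (fun i => (a i)⁻¹) * Matrix.diagonal a = 1 := by
              rw [Matrix.diagonal_mul_diagonal]
              rw [← Matrix.diagonal_one]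
              congr 1
              funext i
              exact inv_mul_cancel₀ (ha0 i)
            calc L 1 * L 0 = (Matrix.diagonal (fun i => (a i)⁻¹) * Matrix.diagonal a) *
                  (L 1 * L 0) := by rw [e5, Matrix.one_mul]
              _ = Matrix.diagonal (fun i => (a i)⁻¹) := by
                  rw [Matrix.mul_assoc, ← hL01, e3, Matrix.mul_one]
          rw [gr_conj (le_refl 2) _ hγ2, hγ3, e1, e2]
          have e6 : act (L 0 * L 1) (L 1 * L 0) ((-(1 - l⁻¹)) • lfE (fun i => (a i)⁻¹ ^ k)) =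
              (-(1 - l⁻¹)) • act (L 0 * L 1) (L 1 * L 0) (lfE (fun i => (a i)⁻¹ ^ k)) :=
            (actL _ _).map_smul _ _
          rw [e6, hACT n _ _ _ e3, e4]
          congr 2
          funext i
          rw [Matrix.vecMul_diagonal, pow_succ]
    have hbrk : ∀ (k : ℕ) (D : VF n), HomT (d - 1) D →
        br (lfE (fun i => (a i)⁻¹ ^ k)) D ∈ S := by
      intro k D hD
      obtain ⟨γ, hγ1, hγ2, hγ3⟩ := hind k
      have hin : br ((-(1 - l⁻¹)) • lfE (fun i => (a i)⁻¹ ^ k)) D ∈ S := by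
        apply Submodule.subset_span
        right
        exact ⟨hd4, γ, hγ1, hγ2, D, hD, by rw [hγ3]⟩
      rw [br_smul_left] at hin
      have e5 : br (lfE (fun i => (a i)⁻¹ ^ k)) D =
          (-(1 - l⁻¹))⁻¹ • ((-(1 - l⁻¹)) • br (lfE (fun i => (a i)⁻¹ ^ k)) D) := by
        rw [smul_smul, inv_mul_cancel₀ (neg_ne_zero.2 hl3), one_smul]
      rw [e5]
      exact S.smul_mem _ hin
    have hall : ∀ (j : Fin n) (D : VF n), HomT (d - 1) D →
        br (lfE (Pi.single j 1)) D ∈ S := by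
      intro j D hD
      have hinj' : Function.Injective (fun i => (a i)⁻¹) := fun x y hxy =>
        hinj (inv_injective hxy)
      obtain ⟨p, hp⟩ := hVDM n (fun i => (a i)⁻¹) hinj' j
      have e : (Pi.single j 1 : Fin n → ℂ) =
          ∑ k : Fin n, p k • (fun i => (a i)⁻¹ ^ (k : ℕ)) := by
        funext i
        rw [Finset.sum_apply]
        simp only [Pi.smul_apply, smul_eq_mul]
        rw [hp i, Pi.single_apply]
      rw [e, lfE_sum, br_sum_left]
      apply S.sum_mem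
      intro k _
      rw [lfE_smul, br_smul_left]
      exact S.smul_mem _ (hbrk _ D hD)
    obtain ⟨D, hD1, hD2⟩ := hDVN n d hd4 w hw
    rw [hD2]
    exact S.sum_mem fun j _ => hall j _ (hD1 j)
  · have hne : 1 - l * l⁻¹ ^ d ≠ 0 := fun h => hmu (sub_eq_zero.1 h).symm
    have e : w = (1 - l * l⁻¹ ^ d)⁻¹ • (w - (l * l⁻¹ ^ d) • w) := by
      have e1 : w - (l * l⁻¹ ^ d) • w = (1 - l * l⁻¹ ^ d) • w := by rw [sub_smul, one_smul]
      rw [e1, smul_smul, inv_mul_cancel₀ hne, one_smul]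
    rw [e]
    exact S.smul_mem _ tel

end Pool.Agent.L7h4.SF
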