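import Pool.Agent.L7h57.RV.Stm
import Pool.Agent.L7h4.FR.Four

/-!
# Project SF (MP_2a1f98_al): four involutions suffice (1) in every dimension `n ≥ 2` for scalar
linear part `λ`, `λ² ≠ 1`; (2) in dimension three for every linear part other than `1`, `-1`.
-/

set_option autoImplicit false

namespace Pool.Agent.L7h4.SF

open MvPolynomial Pool.Helper89.Rev Pool.Agent.L7h57.RV Matrix

/-- the field `(∑ c_j x_j) E` -/
noncomputable def lfE {n : ℕ} (c : Fin n → ℂ) : VF n := fun i => (∑ j, C (c j) * X j) * X i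

/-- [SET] (80 lines). PROOF: `μ = λ²`, `m = orderOf μ ≥ 2` divides `n` (`μ^n = 1`), `n = m q`,
`m q ≥ 2`.  Index `Fin n ≃ Fin q × Fin m` (`finProdFinEquiv`, cast), `a (j,k) = 2^(2j-q+1) μ^k`
(integer exponent; write `2^(2j) * (2^(q-1))⁻¹`).  Injective: absolute values (`‖μ‖ = 1`) give `j`, then
`μ^k`, `k < m = orderOf μ` gives `k`.  The inverse of `a (j,k)` is `a (rev j, -k mod m)`, and
`μ · (a (j,k))⁻¹ = a (rev j, 1 - k mod m)`. -/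
def S_SET : Prop := ∀ (n : ℕ) (l : ℂ), 2 ≤ n → (l ^ n = 1 ∨ l ^ n = -1) → l ^ 2 ≠ 1 →
  ∃ (a : Fin n → ℂ) (σ τ : Fin n → Fin n), Function.Injective a ∧ (∀ i, a i ≠ 0) ∧
    (∀ i, a (σ i) * a i = 1) ∧ (∀ i, a (τ i) * a i = l ^ 2)

/-- [LIN] (100 lines). PROOF: `σ`, `τ` are involutive (`a` injective).  `P_σ` = the matrix with
entries `1` at `(i, σ i)`.  `L 0 = - P_σ`, `L 1 = L 0 * diagonal a`, `L 2 = - P_τ`,
`L 3 = L 2 * diagonal (fun i => l * (a i)⁻¹)`; `c 0 = 1` (all ones), `c 1 = 0`, `c 2 = l` (constant),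
`c 3 i = l * (1 + l * (a i)⁻¹)`.  (`P_σ² = 1`, `P_σ diag(a) P_σ = diag(a ∘ σ) = diag(a)⁻¹`, similarly
`P_τ diag(b) P_τ = diag(b)⁻¹` for `b = l a⁻¹`.) -/
def S_LIN : Prop := ∀ (n : ℕ) (l : ℂ) (a : Fin n → ℂ) (σ τ : Fin n → Fin n), l ≠ 0 →
  Function.Injective a → (∀ i, a i ≠ 0) → (∀ i, a (σ i) * a i = 1) →
  (∀ i, a (τ i) * a i = l ^ 2) →
  ∃ (L : Fin 4 → Matrix (Fin n) (Fin n) ℂ) (c : Fin 4 → Fin n → ℂ), (∀ j, L j * L j = 1) ∧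
    L 0 * L 1 = Matrix.diagonal a ∧ L 0 * L 1 * L 2 * L 3 = l • 1 ∧ (c 0 = fun _ => 1) ∧
    (∀ j, c j ᵥ* L j = - c j) ∧
    c 0 + c 1 ᵥ* L 0 + c 2 ᵥ* (L 1 * L 0) + c 3 ᵥ* (L 2 * L 1 * L 0) = 0

/-- [ACT] (50 lines), compare `act_lE` in L7h36/RV/Lemc.lean (dimension two): evaluate at `y`. -/
def S_ACT : Prop := ∀ (n : ℕ) (g g' : Matrix (Fin n) (Fin n) ℂ) (c : Fin n → ℂ), g * g' = 1 →
  act g g' (lfE c) = lfE (c ᵥ* g')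

/-- [VDM] (30 lines) Vandermonde (`Matrix.det_vandermonde_ne_zero_iff`). -/
def S_VDM : Prop := ∀ (n : ℕ) (b : Fin n → ℂ), Function.Injective b → ∀ j, ∃ p : Fin n → ℂ,
  ∀ i, ∑ k : Fin n, p k * b i ^ (k : ℕ) = if i = j then 1 else 0

/-- [DVN] (80 lines). PROOF (Euler, `IsHomogeneous.sum_X_mul_pderiv`): for `D` of degree `d-1`,
`br (x_j E) D = D_j E - (d-2) x_j D`; for `h` of degree `d-2`, `br (x_j E) (h E) = -(d-3) x_j h E`.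
`u_j = ∂_j w / d` (componentwise, `w = ∑ x_j u_j`), `q = (∑ (u_j)_j)/(d-2)`, `h_j = ∂_j q/(d-1)`,
`D_j = - u_j/(d-2) - h_j E/(d-3)`. -/
def S_DVN : Prop := ∀ (n d : ℕ), 4 ≤ d → ∀ w : VF n, HomT d w → ∃ D : Fin n → VF n,
  (∀ j, HomT (d - 1) (D j)) ∧ w = ∑ j, br (lfE (Pi.single j 1)) (D j)

/-- [SF] (helper4; from `S_GEN`, `S_SET`, `S_LIN`, `S_ACT`, `S_VDM`, `S_DVN`) -/
def S_SF : Prop := ∀ (n : ℕ) (l : ℂ), 2 ≤ n → (l ^ n = 1 ∨ l ^ n = -1) → l ^ 2 ≠ 1 →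
  ∀ F : G n, linPart (F : FormalMap n) = l • 1 → ProdInv 4 F

/-! ### dimension three -/

open Pool.Agent.L7h4.F5 in
/-- [C3] (50 lines).  `E` = the matrix with rows `φ ᵥ* g k`; `g' k * T * g k =
1 + (g' k *ᵥ w) ⊗ (φ ᵥ* g k)`, and `E (g'_k T g_k) E⁻¹ = 1 + (E g'_k w) ⊗ e_k`, where
`(E g'_k w)_k = φ g_k g'_k w = φ w = 0`.  So `P = E⁻¹`, `P' = E` (see `s_ORBH` in L7h77/F5). -/
def S_C3 : Prop := ∀ (n : ℕ) (G : Submonoid (Mat n)) (w φ : Fin n → ℂ) (g g' : Fin n → Mat n),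
  w ≠ 0 → φ ⬝ᵥ w = 0 → (1 + vecMulVec w φ) ∈ G → (∀ k, g k ∈ G) → (∀ k, g' k ∈ G) →
  (∀ k, g k * g' k = 1) → (Matrix.of fun k => φ ᵥ* g k).det ≠ 0 → Cert G

open Pool.Agent.L7h4.F5 in
/-- [RANK] (120 lines).  A derogatory `3 × 3` matrix is a rank one perturbation of a scalar.
PROOF: `A` has an eigenvalue; triangularise, or: if for all eigenvalues `b` the kernel of `A - b` is
one-dimensional then `A` has a cyclic vector (`det (v, Av, A²v)` is not identically zero in `v`). -/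
def S_RANK : Prop := ∀ A : Mat 3, ¬ Cyclic A → (∀ l : ℂ, A ≠ l • 1) →
  ∃ (b : ℂ) (u p : Fin 3 → ℂ), u ≠ 0 ∧ p ≠ 0 ∧ A = b • 1 + vecMulVec u p

open Pool.Agent.L7h4.F5 in
/-- [SIM] (80 lines).  Transitivity of `GL_3` on the pairs (vector, covector), both nonzero, with
given value `p ⬝ᵥ u`. -/
def S_SIM : Prop := ∀ u p u' p' : Fin 3 → ℂ, u ≠ 0 → p ≠ 0 → u' ≠ 0 → p' ≠ 0 →
  p ⬝ᵥ u = p' ⬝ᵥ u' → ∃ P P' : Mat 3, P * P' = 1 ∧ P' * P = 1 ∧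
    P' * vecMulVec u p * P = vecMulVec u' p'

open Pool.Agent.L7h4.F5 in
/-- [G1] (100 lines; hypothesis `S_C3`).  The case `b² ≠ 1`.  With `a = b⁻¹`, `R = diag(a, b, x)`,
`t1` = exchange of the first two coordinates, `t2 = t1 R`, `w1 = x (a - b)`, `w = (w1, 0, -w1)`,
`φ = (1, 0, 1)`, `T = 1 + w ⊗ φ = t3 t4`, `t3 = 1 - 2 α ⊗ φ`, `t4 = 1 - 2 β ⊗ φ`, `φ α = φ β = 1`,
`2 (α - β) = -w`... (`t3 t4 = 1 - 2 (α - β) ⊗ φ`; `α = (0,0,1) - w/2`, `β = (0,0,1)`).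
`R T = b + u' ⊗ p'` with `u' ⊗ p' = R T - b` of rank one (second row and column zero,
`det` of the other 2×2 block zero).  Certificate: `φ`, `φ R`, `φ t1` are independent
(`a ≠ x`). -/
def S_G1 : Prop := ∀ b x : ℂ, b ≠ 0 → b ^ 2 ≠ 1 → x ^ 2 = 1 → ∃ u' p' : Fin 3 → ℂ, u' ≠ 0 ∧
  p' ≠ 0 ∧ p' ⬝ᵥ u' = x / b ^ 2 - b ∧ Good 4 (b • 1 + vecMulVec u' p')

open Pool.Agent.L7h4.F5 in
/-- [G2] (80 lines; hypothesis `S_C3`), the case `b² = 1`, `x = b` (`b` times a transvection).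
For `b = 1`: `L = 1 + u p` (`p u = 0`), `T = 1 + w φ = t3 t4` with `t3 = 1 - 2 w ⊗ α`, `t4 = 1 - 2 w ⊗ β`,
`α w = β w = 1`, `φ = 2 (β - α)`, `R = L T⁻¹` is the identity on `ker p ∩ ker φ` and has two
other distinct eigenvalues `y, 1/y`, `R = t1 t2`.  `φ`, `φ R`, `φ R t3` are independent if
`φ u ≠ 0`, `p w ≠ 0`, `α` not in the span of `φ, p`.  Take numbers.  `b = -1`: replace `t1` by `-t1`
(then use `R' = -R`). -/
def S_G2 : Prop := ∀ b : ℂ, b ^ 2 = 1 → ∃ u' p' : Fin 3 → ℂ, u' ≠ 0 ∧ p' ≠ 0 ∧ p' ⬝ᵥ u' = 0 ∧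
  Good 4 (b • 1 + vecMulVec u' p')

open Pool.Agent.L7h4.F5 in
/-- [G3] (80 lines; hypothesis `S_C3`), the case `b² = 1`, `x = -b` (`b` times a reflection).
Numbers from helper4 (see topic helper4): involutions `t1, t2, t3, t4` of `Q^3` with
`t1 t2 t3 t4 = 1 + u' p'`, `p' u' = -2`, and `(t3 t4)^2` a transvection.  `b = -1`: `-t1`. -/
def S_G3 : Prop := ∀ b : ℂ, b ^ 2 = 1 → ∃ u' p' : Fin 3 → ℂ, u' ≠ 0 ∧ p' ≠ 0 ∧
  p' ⬝ᵥ u' = -2 * b ∧ Good 4 (b • 1 + vecMulVec u' p')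

open Pool.Agent.L7h4.F5 in
/-- [D3] (50 lines; from `S_RANK`, `S_SIM`, `S_G1`, `S_G2`, `S_G3`, `S_GCJ`):
`det (b + u p) = b² (b + p u)`. -/
def S_D3 : Prop := ∀ A : Mat 3, (A.det = 1 ∨ A.det = -1) → ¬ Cyclic A → (∀ l : ℂ, A ≠ l • 1) →
  Good 4 A

end Pool.Agent.L7h4.SF
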